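import Pool.Agent.R929.SL.Loci

/-!
# Derived invariance of the support loci `V^i(ω)_0` for `i ≤ 2`

Let `X`, `Y` be smooth projective complex varieties of dimension `n` with `D(X) ≃ D(Y)`.

* `LociData n` consists of the points of `Pic⁰(X)` with the Zariski topology and, for every `α`, the
  cohomology of `X` with values in `α` (`Twisted n`, starting library): the groups
  `H^{p,q} = H^q(X, Ω^p ⊗ α)`, with hard Lefschetz theorem, Hodge–Riemann relations and the product with
  `c₁`.  `V i` is the locus `V^i(ω_X)` of the `α` with `H^i(X, ω_X ⊗ α) ≠ 0`, and `V0 i` is `V^i(ω_X)_0`,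
  the union of the irreducible components through the origin.
* `Rouquier A B`: the Rouquier isomorphism `F : Aut⁰(X) × Pic⁰(X) ≃ Aut⁰(Y) × Pic⁰(Y)` gives an
  isomorphism `e` of the closed subgroups of the `α` and `β` with `F (1, α) = (1, β)`.  The components
  through the origin of all the loci are contained in these subgroups (Lombardi).  For torsion points
  the equivalence lifts to the étale coverings of `X` and `Y` given by `α` and `β = e α`, and induces an
  isomorphism of the cohomologies with values in `α` and `β`, which preserves `p - q` and the Mukai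
  pairing (`Transform`).

Theorem: `e` maps `V^i(ω_X)_0` onto `V^i(ω_Y)_0` (`Rouquier.Matches`), so these loci are isomorphic
(as `e` is an isomorphism of algebraic groups),

* for `i ≤ 2` and `i ≥ n`, for every `n`; in particular for all `i` if `n ≤ 3`, and for `i ≠ 3` if
  `n = 4`;
* for all `i`, for every `n`, if `K` or `-K` (`L = s c₁`) is semiample and the pluricanonical
  morphism has defect of semismallness at most two, for instance equidimensional fibres of dimension
  at most two (`DefectTwo`, theorems of de Cataldo and Migliorini for the local system `α`).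

The proof of the first part: `h^{n,2}(α) = h^{n-2,0}(α)` is the negative index of the hermitian form
`∫ x ∪ conj y` on `H^{n-1,1}(α)` (Hodge index theorem), and the inertia of the whole form on
`⊕_k H^{n-1+k,1+k}(α)` is preserved by the equivalence (starting library); for the second part the same
is done with the forms `∫ L ^ k x ∪ conj y` (`R929.OD.main`).
-/

namespace Pool.Agent.Results.MP_abca3a_ag.IndexAtMostTwo

open Pool.Agent.TH125.Tw Pool.Agent.R929.SL Pool.Agent.R929.OD

/-- **Theorem.** -/
theorem result {n : ℕ} (A B : LociData n) (F : Rouquier A B) :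
    (∀ i : ℕ, i ≤ 2 ∨ n ≤ i → F.Matches i) ∧
    (∀ s : ℤ, (∀ α ∈ A.tors, DefectTwo (A.coh α) (s • (A.coh α).chern)) →
      (∀ β ∈ B.tors, DefectTwo (B.coh β) (s • (B.coh β).chern)) → ∀ i : ℕ, F.Matches i) :=
  ⟨fun _ hi => low_matches F hi, fun s hA hB i => defect_matches F s hA hB i⟩

end Pool.Agent.Results.MP_abca3a_ag.IndexAtMostTwo
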